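import Pool.Agent.Lib.H36Q.ModB

/-!
# The module theorem: composition of two simple drawings with a plane Hamiltonian subdrawing

`M`, `O` are a partition of the vertices such that `M` is a module. If the subdrawings on `M ∪ {y₀}` and `O ∪ {a₀}` have
plane subdrawings `G₁`, `G₂` with `2|M| - 1` and `2|O| - 1` edges and Hamiltonian cycles, so does `D`: take `G₁ - y₀`,
`G₂ - a₀` and a plane spanning tree between the neighbours of `y₀` in `G₁` and the neighbours of `a₀` in `G₂` which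
contains two disjoint edges between the neighbours on the two cycles (`H5CY.cy_weights`). (helper40)
-/

set_option autoImplicit false

namespace H36Q

open H53P SimpleDraw

theorem module_drawing {n : ℕ} (D : SimpleDrawing n) (M O : Finset (Fin n)) (hMO : Disjoint M O)
    (hu : M ∪ O = Finset.univ) (hM2 : 2 ≤ M.card) (hO2 : 2 ≤ O.card) {a₀ y₀ : Fin n} (ha : a₀ ∈ M) (hy : y₀ ∈ O)
    (h1 : ∀ a ∈ M, ∀ b ∈ M, ∀ y ∈ O, ∀ z ∈ O, ¬ Cr D a b y z)
    (h2 : ∀ a ∈ M, ∀ b ∈ M, ∀ c ∈ M, ∀ y ∈ O, ∀ z ∈ O, Cr D a b c y → Cr D a b c z)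
    (h3 : ∀ x ∈ O, ∀ y ∈ O, ∀ z ∈ O, ∀ a ∈ M, ∀ b ∈ M, Cr D x y z a → Cr D x y z b)
    (hM : Star D (insert y₀ M)) (hO : Star D (insert a₀ O)) : D.HasPlaneHamiltonian := by
  classical
  obtain ⟨G₁, p₁, s₁, k₁, x₁, c₁, hc₁, hw₁⟩ := hM
  obtain ⟨G₂, p₂, s₂, k₂, x₂, c₂, hc₂, hw₂⟩ := hO
  have nM : ∀ v, v ∈ M → v ∉ O := fun v hv hv' => Finset.disjoint_left.1 hMO hv hv'
  have hyM : y₀ ∉ M := fun h => nM _ h hy
  have haO : a₀ ∉ O := nM _ ha
  have hcard : M.card + O.card = n := by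
    rw [← Finset.card_union_of_disjoint hMO, hu, Finset.card_univ, Fintype.card_fin]
  -- the support of a cycle is inside the vertex set
  have supp : ∀ {G : SimpleGraph (Fin n)} {W : Finset (Fin n)} {x : Fin n} {c : G.Walk x x},
      (∀ i j, G.Adj i j → i ∈ W ∧ j ∈ W) → c.IsCycle → ∀ v ∈ c.support, v ∈ W := by
    intro G W x c hs hc v hv
    obtain ⟨d, hd⟩ : ∃ d : G.Walk v v, d.IsCycle := ⟨c.rotate v hv, SimpleGraph.Walk.IsCycle.rotate hv hc⟩
    cases d with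
    | nil => exact absurd rfl hd.ne_nil
    | cons h _ => exact (hs _ _ h).1
  obtain ⟨P, P1, P2, P3, b, b', hbb, P4, P5, P6, P7⟩ := cycle_list hc₁ (hw₁ y₀ (Finset.mem_insert_self _ _))
  obtain ⟨Q, Q1, Q2, Q3, z, z', hzz, Q4, Q5, Q6, Q7⟩ := cycle_list hc₂ (hw₂ a₀ (Finset.mem_insert_self _ _))
  have memP : ∀ v, v ∈ P ↔ v ∈ M := by
    intro v
    rw [P2]
    constructor
    · rintro ⟨h4, h5⟩
      exact Finset.mem_of_mem_insert_of_ne (supp s₁ hc₁ v h4) h5
    · intro h4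
      exact ⟨hw₁ v (Finset.mem_insert_of_mem h4), fun e => hyM (e ▸ h4)⟩
  have memQ : ∀ v, v ∈ Q ↔ v ∈ O := by
    intro v
    rw [Q2]
    constructor
    · rintro ⟨h4, h5⟩
      exact Finset.mem_of_mem_insert_of_ne (supp s₂ hc₂ v h4) h5
    · intro h4
      exact ⟨hw₂ v (Finset.mem_insert_of_mem h4), fun e => haO (e ▸ h4)⟩
  obtain ⟨B, hB⟩ : ∃ B : Finset (Fin n), ∀ v, v ∈ B ↔ G₁.Adj y₀ v :=
    ⟨Finset.univ.filter fun v => G₁.Adj y₀ v, fun v => by simp⟩
  obtain ⟨Y, hY⟩ : ∃ Y : Finset (Fin n), ∀ v, v ∈ Y ↔ G₂.Adj a₀ v :=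
    ⟨Finset.univ.filter fun v => G₂.Adj a₀ v, fun v => by simp⟩
  have BM : ∀ v, v ∈ B → v ∈ M := fun v hv =>
    Finset.mem_of_mem_insert_of_ne (s₁ _ _ ((hB v).1 hv)).2 ((hB v).1 hv).ne.symm
  have YO : ∀ v, v ∈ Y → v ∈ O := fun v hv =>
    Finset.mem_of_mem_insert_of_ne (s₂ _ _ ((hY v).1 hv)).2 ((hY v).1 hv).ne.symm
  have hBY : Disjoint B Y := Finset.disjoint_left.2 fun v hv hv' => nM v (BM v hv) (YO v hv')
  obtain ⟨T, hT, hadj⟩ := H5CY.cy_weights D hBY ((hB b).2 P6) ((hB b').2 P7) hbb ((hY z).2 Q6) ((hY z').2 Q7) hzz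
  obtain ⟨H₁, hH₁⟩ : ∃ H, H = G₁.deleteIncidenceSet y₀ := ⟨_, rfl⟩
  obtain ⟨H₂, hH₂⟩ : ∃ H, H = G₂.deleteIncidenceSet a₀ := ⟨_, rfl⟩
  have adj₁ : ∀ {i j}, H₁.Adj i j → G₁.Adj i j ∧ i ∈ M ∧ j ∈ M := by
    intro i j h
    rw [hH₁, SimpleGraph.deleteIncidenceSet_adj] at h
    exact ⟨h.1, Finset.mem_of_mem_insert_of_ne (s₁ _ _ h.1).1 h.2.1,
      Finset.mem_of_mem_insert_of_ne (s₁ _ _ h.1).2 h.2.2⟩
  have adj₂ : ∀ {i j}, H₂.Adj i j → G₂.Adj i j ∧ i ∈ O ∧ j ∈ O := by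
    intro i j h
    rw [hH₂, SimpleGraph.deleteIncidenceSet_adj] at h
    exact ⟨h.1, Finset.mem_of_mem_insert_of_ne (s₂ _ _ h.1).1 h.2.1,
      Finset.mem_of_mem_insert_of_ne (s₂ _ _ h.1).2 h.2.2⟩
  -- crossings between the parts
  have x1T : ∀ {i j u v}, H₁.Adj i j → T.Adj u v → ¬ Cr D i j u v := by
    intro i j u v hij huv hX
    obtain ⟨g1, g2, g3⟩ := adj₁ hij
    rcases hT.2.1 u v huv with ⟨h4, h5⟩ | ⟨h4, h5⟩
    · exact not_cr_of_plane p₁ g1 ((hB u).1 h4).symm (h2 i g2 j g3 u (BM u h4) v (YO v h5) y₀ hy hX)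
    · exact not_cr_of_plane p₁ g1 ((hB v).1 h5).symm
        (h2 i g2 j g3 v (BM v h5) u (YO u h4) y₀ hy (cr_symm3 hX))
  have x2T : ∀ {i j u v}, H₂.Adj i j → T.Adj u v → ¬ Cr D i j u v := by
    intro i j u v hij huv hX
    obtain ⟨g1, g2, g3⟩ := adj₂ hij
    rcases hT.2.1 u v huv with ⟨h4, h5⟩ | ⟨h4, h5⟩
    · exact not_cr_of_plane p₂ g1 ((hY v).1 h5).symm
        (h3 i g2 j g3 v (YO v h5) u (BM u h4) a₀ ha (cr_symm3 hX))
    · exact not_cr_of_plane p₂ g1 ((hY u).1 h4).symm (h3 i g2 j g3 u (YO u h4) v (BM v h5) a₀ ha hX)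
  have x12 : ∀ {i j u v}, H₁.Adj i j → H₂.Adj u v → ¬ Cr D i j u v := by
    intro i j u v hij huv
    obtain ⟨g1, g2, g3⟩ := adj₁ hij
    obtain ⟨g4, g5, g6⟩ := adj₂ huv
    exact h1 i g2 j g3 u g5 v g6
  have key : ∀ i j k l, (T ⊔ H₁ ⊔ H₂).Adj i j → (T ⊔ H₁ ⊔ H₂).Adj k l → ¬ Cr D i j k l := by
    intro i j k l hij hkl hX
    rw [SimpleGraph.sup_adj, SimpleGraph.sup_adj] at hij hkl
    rcases hij with (hij | hij) | hij <;> rcases hkl with (hkl | hkl) | hkl
    · exact not_cr_of_plane hT.1 hij hkl hX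
    · exact x1T hkl hij (cr_symm2 hX)
    · exact x2T hkl hij (cr_symm2 hX)
    · exact x1T hij hkl hX
    · exact not_cr_of_plane p₁ (adj₁ hij).1 (adj₁ hkl).1 hX
    · exact x12 hij hkl hX
    · exact x2T hij hkl hX
    · exact x12 hkl hij (cr_symm2 hX)
    · exact not_cr_of_plane p₂ (adj₂ hij).1 (adj₂ hkl).1 hX
  refine ⟨T ⊔ H₁ ⊔ H₂, H63L.plane_of_table D _ fun i j k l h4 h5 => X_false (key i j k l h4 h5), ?_, ?_⟩
  · -- the number of edges
    have c1 := pt_card hBY hT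
    have c2 := del_card G₁ y₀ B hB
    have c3 := del_card G₂ a₀ Y hY
    rw [← hH₁, k₁, Finset.card_insert_of_notMem hyM] at c2
    rw [← hH₂, k₂, Finset.card_insert_of_notMem haO] at c3
    have d1 : Disjoint T.edgeSet H₁.edgeSet := by
      rw [Set.disjoint_left]
      intro e
      induction e with
      | h u v =>
        intro h4 h5
        have h6 := adj₁ ((SimpleGraph.mem_edgeSet _).1 h5)
        rcases hT.2.1 u v ((SimpleGraph.mem_edgeSet _).1 h4) with ⟨-, h7⟩ | ⟨h7, -⟩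
        · exact nM _ h6.2.2 (YO _ h7)
        · exact nM _ h6.2.1 (YO _ h7)
    have d2 : Disjoint (T.edgeSet ∪ H₁.edgeSet) H₂.edgeSet := by
      rw [Set.disjoint_left]
      intro e
      induction e with
      | h u v =>
        intro h4 h5
        have h6 := adj₂ ((SimpleGraph.mem_edgeSet _).1 h5)
        rcases h4 with h4 | h4
        · rcases hT.2.1 u v ((SimpleGraph.mem_edgeSet _).1 h4) with ⟨h7, -⟩ | ⟨-, h7⟩
          · exact nM _ (BM _ h7) h6.2.1
          · exact nM _ (BM _ h7) h6.2.2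
        · exact nM _ (adj₁ ((SimpleGraph.mem_edgeSet _).1 h4)).2.1 h6.2.1
    rw [SimpleGraph.edgeSet_sup, SimpleGraph.edgeSet_sup, Set.ncard_union_eq d2 (Set.toFinite _) (Set.toFinite _),
      Set.ncard_union_eq d1 (Set.toFinite _) (Set.toFinite _)]
    omega
  · -- the Hamiltonian cycle
    have hnd : (P ++ Q).Nodup := by
      rw [List.nodup_append]
      exact ⟨P1, Q1, fun v hv w hw e => nM v ((memP v).1 hv) ((memQ v).1 (e ▸ hw))⟩
    have hall : ∀ v, v ∈ P ++ Q := by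
      intro v
      rw [List.mem_append, memP, memQ, ← Finset.mem_union, hu]
      exact Finset.mem_univ v
    obtain ⟨x, p, hp⟩ := H5CY.gu_ham (by omega) T hnd hall P4 P5 Q4 Q5 hadj
    have le : H5CY.gu T P Q ≤ T ⊔ H₁ ⊔ H₂ := by
      have chain : ∀ {G : SimpleGraph (Fin n)} {l : List (Fin n)}, l.IsChain G.Adj → ∀ e ∈ edges l, G.Adj e.1 e.2 := by
        intro G l hl e he
        obtain ⟨k, hk, rfl⟩ := H24F.edges_get he
        exact hl.getElem k hk
      have cP : ∀ i j, (i, j) ∈ edges P → H₁.Adj i j := by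
        intro i j h
        have h4 := chain P3 _ h
        obtain ⟨k, hk, e⟩ := H24F.edges_get h
        have h5 := (Prod.ext_iff.1 e)
        rw [hH₁, SimpleGraph.deleteIncidenceSet_adj]
        refine ⟨h4, fun e' => hyM ?_, fun e' => hyM ?_⟩
        · rw [← memP, ← e']
          have h6 : i = P[k] := h5.1
          rw [h6]
          exact List.getElem_mem _
        · rw [← memP, ← e']
          have h6 : j = P[k + 1] := h5.2
          rw [h6]
          exact List.getElem_mem _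
      have cQ : ∀ i j, (i, j) ∈ edges Q → H₂.Adj i j := by
        intro i j h
        have h4 := chain Q3 _ h
        obtain ⟨k, hk, e⟩ := H24F.edges_get h
        have h5 := (Prod.ext_iff.1 e)
        rw [hH₂, SimpleGraph.deleteIncidenceSet_adj]
        refine ⟨h4, fun e' => haO ?_, fun e' => haO ?_⟩
        · rw [← memQ, ← e']
          have h6 : i = Q[k] := h5.1
          rw [h6]
          exact List.getElem_mem _
        · rw [← memQ, ← e']
          have h6 : j = Q[k + 1] := h5.2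
          rw [h6]
          exact List.getElem_mem _
      intro i j h
      unfold H5CY.gu at h
      rw [SimpleGraph.fromRel_adj] at h
      rw [SimpleGraph.sup_adj, SimpleGraph.sup_adj]
      rcases h.2 with (h | h | h) | (h | h | h)
      · exact Or.inl (Or.inl h)
      · exact Or.inl (Or.inr (cP _ _ h))
      · exact Or.inr (cQ _ _ h)
      · exact Or.inl (Or.inl h.symm)
      · exact Or.inl (Or.inr (cP _ _ h).symm)
      · exact Or.inr (cQ _ _ h).symm
    exact ⟨x, p.map (SimpleGraph.Hom.ofLE le), hp.map (f := SimpleGraph.Hom.ofLE le) Function.bijective_id⟩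

end H36Q
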