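import Mathlib

/-!
# A cycle without one of its vertices as a list
-/

set_option autoImplicit false

namespace H36Q

theorem cycle_list {V : Type*} [DecidableEq V] {G : SimpleGraph V} {a : V} {c : G.Walk a a} (hc : c.IsCycle) {y : V}
    (hy : y ∈ c.support) : ∃ P : List V, P.Nodup ∧ (∀ v, v ∈ P ↔ v ∈ c.support ∧ v ≠ y) ∧ P.IsChain G.Adj ∧
      ∃ b b' : V, b ≠ b' ∧ P.head? = some b ∧ P.getLast? = some b' ∧ G.Adj y b ∧ G.Adj y b' := by
  obtain ⟨d, hd, hsupp⟩ : ∃ d : G.Walk y y, d.IsCycle ∧ ∀ v, v ∈ d.support ↔ v ∈ c.support :=
    ⟨c.rotate y hy, SimpleGraph.Walk.IsCycle.rotate hy hc, fun v => SimpleGraph.Walk.mem_support_rotate_iff c y hy⟩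
  cases d with
  | nil => exact absurd rfl hd.ne_nil
  | @cons _ b _ h p =>
    have h3 : 3 ≤ (SimpleGraph.Walk.cons h p).length := hd.three_le_length
    rw [SimpleGraph.Walk.length_cons] at h3
    have hnd : p.support.Nodup := by
      have h4 := hd.support_nodup
      rwa [SimpleGraph.Walk.support_cons, List.tail_cons] at h4
    have hlast : p.support.getLast (SimpleGraph.Walk.support_ne_nil p) = y := SimpleGraph.Walk.getLast_support p
    have hP : p.support = p.support.dropLast ++ [y] := by
      conv_lhs => rw [← List.dropLast_append_getLast (SimpleGraph.Walk.support_ne_nil p), hlast]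
    have hlen : p.support.dropLast.length = p.length := by
      rw [List.length_dropLast, SimpleGraph.Walk.length_support]
      omega
    have hne : p.support.dropLast ≠ [] := by
      intro e
      rw [e, List.length_nil] at hlen
      omega
    have hchain := SimpleGraph.Walk.isChain_adj_support p
    rw [hP] at hchain hnd
    rw [List.isChain_append] at hchain
    rw [List.nodup_append] at hnd
    have hhead : p.support.dropLast.head? = some b := by
      have h5 : p.support.head? = some b := by
        rw [List.head?_eq_some_head (SimpleGraph.Walk.support_ne_nil p), SimpleGraph.Walk.head_support]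
      rw [hP] at h5
      rwa [List.head?_append_of_ne_nil _ hne] at h5
    refine ⟨p.support.dropLast, hnd.1, ?_, hchain.1, b, p.support.dropLast.getLast hne, ?_, hhead,
      List.getLast?_eq_some_getLast hne, h, ?_⟩
    · intro v
      rw [← hsupp v, SimpleGraph.Walk.support_cons, List.mem_cons]
      conv_rhs => rw [hP, List.mem_append, List.mem_singleton]
      constructor
      · intro hv
        exact ⟨Or.inr (Or.inl hv), fun e => hnd.2.2 v hv y (by simp) e⟩
      · rintro ⟨hv, hvy⟩
        rcases hv with hv | hv | hv
        · exact absurd hv hvy
        · exact hv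
        · exact absurd hv hvy
    · intro e
      have h6 : p.support.dropLast.head hne = b := by
        rw [List.head?_eq_some_head hne] at hhead
        exact Option.some.inj hhead
      have h7 : 2 ≤ p.support.dropLast.length := by omega
      have h8 : p.support.dropLast[0] = p.support.dropLast[p.support.dropLast.length - 1] := by
        rw [← List.head_eq_getElem hne, ← List.getLast_eq_getElem hne, h6]
        exact e
      have h9 := (List.Nodup.getElem_inj_iff hnd.1).1 h8
      omega
    · have h5 := hchain.2.2 (p.support.dropLast.getLast hne) (List.getLast?_eq_some_getLast hne ▸ rfl) y rfl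
      exact h5.symm

end H36Q
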