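import Pool.Agent.SimpleDraw.Defs

/-!
# Subdrawings on subsets of the vertices
-/

set_option autoImplicit false

namespace H36Q

open SimpleDraw

/-- the subdrawing of `D` on the vertices `f 0, f 1, …` -/
def sub {n k : ℕ} (D : SimpleDrawing n) (f : Fin k ↪ Fin n) : SimpleDrawing k where
  pt i := D.pt (f i)
  curve i j := D.curve (f i) (f j)
  pt_inj := D.pt_inj.comp f.injective
  curve_symm i j := D.curve_symm (f i) (f j)
  arc i j h := D.arc (f i) (f j) fun e => h (f.injective e)
  vertex i j k h1 h2 h3 := D.vertex (f i) (f j) (f k) (fun e => h1 (f.injective e))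
    (fun e => h2 (f.injective e)) fun e => h3 (f.injective e)
  inter i j k l h1 h2 h3 := D.inter (f i) (f j) (f k) (f l) (fun e => h1 (f.injective e))
    (fun e => h2 (f.injective e)) fun e => h3 (Sym2.map.injective f.injective (by simpa using e))
  proper i j k l h1 h2 h3 p hp := by
    have h5 : s(f i, f j) ≠ s(f k, f l) := fun e =>
      h3 (Sym2.map.injective f.injective (by simpa using e))
    rcases D.proper (f i) (f j) (f k) (f l) (fun e => h1 (f.injective e))
      (fun e => h2 (f.injective e)) h5 p hp with ⟨v, hv1, hv2, hv3⟩ | h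
    · left
      rcases hv1 with rfl | rfl
      · exact ⟨i, Or.inl rfl, hv2.imp (fun e => f.injective e) fun e => f.injective e, hv3⟩
      · exact ⟨j, Or.inr rfl, hv2.imp (fun e => f.injective e) fun e => f.injective e, hv3⟩
    · exact Or.inr h

/-- `W` carries a plane subdrawing with exactly `2|W| - 3` edges and a cycle through all vertices of `W` -/
def Star {n : ℕ} (D : SimpleDrawing n) (W : Finset (Fin n)) : Prop :=
  ∃ G : SimpleGraph (Fin n), D.Plane G ∧ (∀ i j, G.Adj i j → i ∈ W ∧ j ∈ W) ∧
    G.edgeSet.ncard = 2 * W.card - 3 ∧ ∃ (a : Fin n) (c : G.Walk a a), c.IsCycle ∧ ∀ w ∈ W, w ∈ c.support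

theorem card_of_range {n k : ℕ} {f : Fin k ↪ Fin n} {W : Finset (Fin n)}
    (hW : (W : Set (Fin n)) = Set.range f) : W.card = k := by
  classical
  have : W = Finset.univ.map f := by
    ext w
    have h := Set.ext_iff.1 hW w
    simpa using h
  rw [this, Finset.card_map, Finset.card_univ, Fintype.card_fin]

theorem star_of_sub {n k : ℕ} {D : SimpleDrawing n} {f : Fin k ↪ Fin n} {W : Finset (Fin n)}
    (hW : (W : Set (Fin n)) = Set.range f) (h : (sub D f).HasPlaneHamiltonian) : Star D W := by
  classical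
  obtain ⟨G, hG, hc, a, c, hham⟩ := h
  have hcard := card_of_range hW
  have hmem : ∀ w, w ∈ W ↔ ∃ i, f i = w := fun w => by
    have h := Set.ext_iff.1 hW w
    simpa using h
  refine ⟨G.map f, ?_, ?_, ?_, (SimpleGraph.Embedding.map f G).toHom a,
    c.map (SimpleGraph.Embedding.map f G).toHom, ?_, ?_⟩
  · intro i j k l hij hkl hne p hp
    rw [SimpleGraph.map_adj] at hij hkl
    obtain ⟨i', j', h1, rfl, rfl⟩ := hij
    obtain ⟨k', l', h2, rfl, rfl⟩ := hkl
    obtain ⟨v, hv1, hv2, hv3⟩ := hG i' j' k' l' h1 h2 (fun e => hne (by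
      have h3 := congrArg (Sym2.map f) e
      simpa using h3)) p hp
    exact ⟨f v, hv1.imp (congrArg f) (congrArg f), hv2.imp (congrArg f) (congrArg f), hv3⟩
  · intro i j hij
    rw [SimpleGraph.map_adj] at hij
    obtain ⟨i', j', -, rfl, rfl⟩ := hij
    exact ⟨(hmem _).2 ⟨i', rfl⟩, (hmem _).2 ⟨j', rfl⟩⟩
  · rw [SimpleGraph.edgeSet_map, Set.ncard_image_of_injective _ f.sym2Map.injective, hc, hcard]
  · exact hham.isCycle.map (SimpleGraph.Embedding.map f G).injective
  · intro w hw
    obtain ⟨i, rfl⟩ := (hmem w).1 hw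
    rw [SimpleGraph.Walk.support_map]
    exact List.mem_map.2 ⟨i, hham.mem_support i, rfl⟩

end H36Q
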