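import Pool.Agent.Lib.H36Q.ModA
import Pool.Agent.Lib.H36Q.Sub
import Pool.Agent.Lib.H5CY.F1
import Pool.Agent.Lib.H24F.TP
import Pool.Agent.Lib.H63L.FIN

/-!
# The module theorem
-/

set_option autoImplicit false

namespace H36Q

open H53P SimpleDraw

/-- the edges `ij` and `kl` cross -/
def Cr {n : ℕ} (D : SimpleDrawing n) (i j k l : Fin n) : Prop :=
  i ≠ j ∧ k ≠ l ∧ i ≠ k ∧ i ≠ l ∧ j ≠ k ∧ j ≠ l ∧ (D.curve i j ∩ D.curve k l).Nonempty

theorem X_iff {n : ℕ} (D : SimpleDrawing n) (i j k l : Fin n) : (table D).X i j k l = true ↔ Cr D i j k l := by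
  rw [table_X]
  unfold X Cr
  exact @decide_eq_true_iff _ (Classical.dec _)

theorem X_false {n : ℕ} {D : SimpleDrawing n} {i j k l : Fin n} (h : ¬ Cr D i j k l) : (table D).X i j k l = false := by
  rw [← Bool.not_eq_true, X_iff]
  exact h

theorem cr_symm1 {n : ℕ} {D : SimpleDrawing n} {i j k l : Fin n} (h : Cr D i j k l) : Cr D j i k l := by
  rw [← X_iff, ← (table D).symm1, X_iff]
  exact h

theorem cr_symm2 {n : ℕ} {D : SimpleDrawing n} {i j k l : Fin n} (h : Cr D i j k l) : Cr D k l i j := by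
  rw [← X_iff, ← (table D).symm2, X_iff]
  exact h

theorem cr_symm3 {n : ℕ} {D : SimpleDrawing n} {i j k l : Fin n} (h : Cr D i j k l) : Cr D i j l k :=
  cr_symm2 (cr_symm1 (cr_symm2 h))

theorem not_cr_of_plane {n : ℕ} {D : SimpleDrawing n} {G : SimpleGraph (Fin n)} (hG : D.Plane G) {i j k l : Fin n}
    (hij : G.Adj i j) (hkl : G.Adj k l) : ¬ Cr D i j k l := by
  rintro ⟨-, -, h2, h3, h4, h5, p, hp⟩
  have hne : s(i, j) ≠ s(k, l) := by
    intro h6
    rcases Sym2.eq_iff.1 h6 with ⟨h7, -⟩ | ⟨h7, -⟩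
    · exact h2 h7
    · exact h3 h7
  obtain ⟨v, hv1, hv2, -⟩ := hG i j k l hij hkl hne p hp
  rcases hv1 with rfl | rfl
  · rcases hv2 with h | h
    · exact h2 h
    · exact h3 h
  · rcases hv2 with h | h
    · exact h4 h
    · exact h5 h

/-- the number of edges of a tree between `A` and `B` -/
theorem pt_card {n : ℕ} {D : SimpleDrawing n} {A B : Finset (Fin n)} (hAB : Disjoint A B)
    {G : SimpleGraph (Fin n)} (hG : H24F.PT D A B G) : G.edgeSet.ncard + 1 = A.card + B.card := by
  classical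
  have hs : G.support ⊆ {v | v ∈ A ∨ v ∈ B} := by
    rintro u ⟨v, huv⟩
    rcases hG.2.1 u v huv with h | h
    · exact Or.inl h.1
    · exact Or.inr h.1
  have h1 := hG.2.2.card_edgeFinset
  rw [SimpleGraph.card_edgeFinset_induce_of_support_subset hs] at h1
  have h2 : Fintype.card ({v | v ∈ A ∨ v ∈ B} : Set (Fin n)) = A.card + B.card := by
    rw [← Finset.card_union_of_disjoint hAB, ← Fintype.card_coe]
    exact Fintype.card_congr (Equiv.subtypeEquivRight fun v => by simp)
  rw [h2] at h1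
  rw [← h1, Set.ncard_eq_toFinset_card']
  rfl

/-- the number of edges without the edges at a vertex -/
theorem del_card {n : ℕ} (G : SimpleGraph (Fin n)) (y : Fin n) (B : Finset (Fin n)) (hB : ∀ v, v ∈ B ↔ G.Adj y v) :
    (G.deleteIncidenceSet y).edgeSet.ncard + B.card = G.edgeSet.ncard := by
  classical
  have h1 := SimpleGraph.card_edgeFinset_deleteIncidenceSet G y
  have h2 : G.degree y = B.card := by
    rw [← SimpleGraph.card_neighborFinset_eq_degree]
    congr 1
    ext v
    rw [SimpleGraph.mem_neighborFinset, hB]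
  have h3 : G.degree y ≤ G.edgeFinset.card := SimpleGraph.degree_le_card_edgeFinset G y
  rw [Set.ncard_eq_toFinset_card', Set.ncard_eq_toFinset_card']
  change (G.deleteIncidenceSet y).edgeFinset.card + _ = G.edgeFinset.card
  omega

end H36Q
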